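import Pool.Agent.W236.SC.Defs2

/-!
# SC-DP: propagation of dead roots through a flip
-/

set_option autoImplicit false

namespace Pool.Agent.W101.SC

open Pool.Agent.Helper741 Pool.Agent.W236.SC

variable {B : Type*} [Fintype B] [DecidableEq B] {M : CoxeterMatrix B}

/-! ### the projecting walk -/

theorem aw_start (q : ℕ → B) (U : Finset ℕ) (a : ℕ) (x : B → ℝ) :
    ∀ k, k ≤ a → aw M q U a x k = x := by
  intro k hk
  cases k with
  | zero => rfl
  | succ k => simp only [aw, if_pos (show k < a by omega)]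

theorem aw_mem (q : ℕ → B) (U : Finset ℕ) (a : ℕ) (x : B → ℝ) {k : ℕ} (hk : a ≤ k) (h : k ∈ U) :
    aw M q U a x (k + 1) = sg M (q k) (aw M q U a x k) := by
  simp only [aw, if_neg (show ¬ k < a by omega), if_pos h]

theorem aw_not (q : ℕ → B) (U : Finset ℕ) (a : ℕ) (x : B → ℝ) {k : ℕ} (hk : a ≤ k) (h : k ∉ U) :
    aw M q U a x (k + 1) = aw M q U a x k - (aw M q U a x k (q k)) • ee (q k) := by
  simp only [aw, if_neg (show ¬ k < a by omega), if_neg h]

theorem aw_comb (q : ℕ → B) (U : Finset ℕ) (a : ℕ) (x y : B → ℝ) (c : ℝ) (k : ℕ) :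
    aw M q U a (x + c • y) k = aw M q U a x k + c • aw M q U a y k := by
  induction k with
  | zero => rfl
  | succ k ih =>
    by_cases h1 : k < a
    · rw [aw_start q U a _ (k + 1) h1, aw_start q U a _ (k + 1) h1, aw_start q U a _ (k + 1) h1]
    · push Not at h1
      by_cases h2 : k ∈ U
      · rw [aw_mem q U a _ h1 h2, aw_mem q U a _ h1 h2, aw_mem q U a _ h1 h2, ih, map_add, map_smul]
      · rw [aw_not q U a _ h1 h2, aw_not q U a _ h1 h2, aw_not q U a _ h1 h2, ih]
        simp only [Pi.add_apply, Pi.smul_apply, smul_eq_mul]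
        module

theorem aw_comp (q : ℕ → B) (U : Finset ℕ) (a : ℕ) (x : B → ℝ) {j : ℕ} (haj : a ≤ j) :
    ∀ k, j ≤ k → aw M q U a x k = aw M q U j (aw M q U a x j) k := by
  intro k hk
  induction k, hk using Nat.le_induction with
  | base => rw [aw_start q U j _ j le_rfl]
  | succ k hk ih =>
    by_cases h2 : k ∈ U
    · rw [aw_mem q U a _ (haj.trans hk) h2, aw_mem q U j _ hk h2, ih]
    · rw [aw_not q U a _ (haj.trans hk) h2, aw_not q U j _ hk h2, ih]

theorem aw_congr (q : ℕ → B) (U U' : Finset ℕ) (a : ℕ) (x : B → ℝ) (k : ℕ)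
    (h : ∀ i, a ≤ i → i < k → (i ∈ U ↔ i ∈ U')) : aw M q U a x k = aw M q U' a x k := by
  induction k with
  | zero => rfl
  | succ k ih =>
    have ih' := ih fun i h1 h2 => h i h1 (by omega)
    by_cases h1 : k < a
    · rw [aw_start q U a _ (k + 1) h1, aw_start q U' a _ (k + 1) h1]
    · push Not at h1
      have h3 := h k h1 (by omega)
      by_cases h2 : k ∈ U
      · rw [aw_mem q U a _ h1 h2, aw_mem q U' a _ h1 (h3.1 h2), ih']
      · rw [aw_not q U a _ h1 h2, aw_not q U' a _ h1 (fun h4 => h2 (h3.2 h4)), ih']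

/-! ### roots -/

variable {W : Type*} [Group W] (cs : CoxeterSystem M W)

theorem isRt_rt (q : ℕ → B) (U : Finset ℕ) (k : ℕ) : IsRt cs (rt cs q U k) := ⟨_, _, rfl⟩

theorem inv_rt (q : ℕ → B) (U : Finset ℕ) (k : ℕ) :
    geo cs (pf cs q U k)⁻¹ (rt cs q U k) = ee (q k) := geo_inv_apply cs _ _

theorem rt_of_inv (q : ℕ → B) (U : Finset ℕ) (k : ℕ) (x : B → ℝ)
    (h : geo cs (pf cs q U k)⁻¹ x = ee (q k)) : rt cs q U k = x := by
  unfold rt
  rw [← h, geo_apply_inv]

theorem step_mem (q : ℕ → B) (U : Finset ℕ) {k : ℕ} (h : k ∈ U) (x : B → ℝ) :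
    geo cs (pf cs q U (k + 1))⁻¹ x = sg M (q k) (geo cs (pf cs q U k)⁻¹ x) := by
  simp only [pf, if_pos h]
  rw [mul_inv_rev, cs.inv_simple, map_mul, Module.End.mul_apply, geo_simple]

theorem step_not (q : ℕ → B) (U : Finset ℕ) {k : ℕ} (h : k ∉ U) (x : B → ℝ) :
    geo cs (pf cs q U (k + 1))⁻¹ x = geo cs (pf cs q U k)⁻¹ x := by
  simp only [pf, if_neg h]

section main

variable {n : ℕ} {q : ℕ → B} {ω z : W} {s : B} {U : Finset ℕ} {g g' : ℕ}

/-- (1) -/
theorem L1 (hB : BaseF cs) (hR : S_ROOTS cs) (hSeg : S_SEG cs) (hA : AltM M n q)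
    (hK : IsK cs n q ω z U) (hg : g ∉ U) (hg' : g' ∈ U)
    (e1 : rt cs q U g = geo cs z (ee s)) (e2 : rt cs q U g' = geo cs z (ee s)) {k : ℕ}
    (hgk : g < k) (hkg : k < g') (hkU : k ∉ U) (hne : rt cs q U k ≠ geo cs z (ee s)) :
    (geo cs (pf cs q U k)⁻¹ (geo cs z (ee s))) (q k) = 0 := by
  classical
  obtain ⟨hR1, hR2, hR3, hR4, hR5, hR6⟩ := hR n q ω U hK.fac
  set γ := geo cs z (ee s) with hγ
  have hg'n : g' < n := hK.fac.sub g' hg'
  have huse : ∀ j ∈ U, rt cs q U j = γ → j = g' := fun j hj h => hR3 j hj g' hg' (h.trans e2.symm)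
  set S := (Finset.range k).filter (fun j => g ≤ j ∧ rt cs q U j = γ) with hSdef
  have hS : S.Nonempty := ⟨g, Finset.mem_filter.2 ⟨Finset.mem_range.2 hgk, le_rfl, e1⟩⟩
  set a := S.max' hS with ha
  have haS := Finset.mem_filter.1 (S.max'_mem hS)
  have hak : a < k := Finset.mem_range.1 haS.1
  have hga : g ≤ a := haS.2.1
  have haγ : rt cs q U a = γ := haS.2.2
  have haU : a ∉ U := by
    intro h
    have := huse a h haγ
    omega
  have hb : ∃ j, k < j ∧ rt cs q U j = γ := ⟨g', hkg, e2⟩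
  set b := Nat.find hb with hbdef
  obtain ⟨hkb, hbγ⟩ := Nat.find_spec hb
  have hbg : b ≤ g' := Nat.find_min' hb ⟨hkg, e2⟩
  have hbetw : ∀ j, a < j → j < b → rt cs q U j ≠ γ := by
    intro j haj hjb h
    rcases lt_trichotomy j k with h1 | h1 | h1
    · have : j ∈ S := Finset.mem_filter.2 ⟨Finset.mem_range.2 h1, by omega, h⟩
      have := S.le_max' j this
      omega
    · rw [h1] at h; exact hne h
    · exact Nat.find_min hb hjb ⟨h1, h⟩
  let ζ : (B → ℝ) →ₗ[ℝ] ℝ :=
    (∑ i ∈ Finset.univ.erase s, (LinearMap.proj i : (B → ℝ) →ₗ[ℝ] ℝ)) ∘ₗ (geo cs z⁻¹)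
  have hζ : ∀ x, ζ x = ∑ i ∈ Finset.univ.erase s, (geo cs z⁻¹ x) i := by
    intro x
    simp only [ζ, LinearMap.comp_apply, LinearMap.sum_apply, LinearMap.proj_apply]
  refine hSeg n q ω U a b γ ζ hA hK.fac (by omega) (by omega) ?_ hbγ ?_ ?_ ?_ k hak hkb hkU
  · rw [step_not cs q U haU, ← haγ, inv_rt]
  · intro j h1 h2 _
    exact hbetw j h1 h2
  · rw [hζ, hγ, geo_inv_apply]
    refine Finset.sum_eq_zero fun i hi => ?_
    rw [ee, Pi.single_eq_of_ne (Finset.ne_of_mem_erase hi)]
  · intro j h1 h2 hjU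
    rw [hζ]
    have hnn := hK.pos j (by omega) hjU
    have hr : IsRt cs (geo cs z⁻¹ (rt cs q U j)) := hB.rt_geo _ _ (isRt_rt cs q U j)
    have hex : ∃ i, i ≠ s ∧ (geo cs z⁻¹ (rt cs q U j)) i ≠ 0 := by
      by_contra hcon
      push Not at hcon
      have h3 := hB.rt_supp _ s hr hnn hcon
      apply hbetw j h1 h2
      rw [hγ, ← h3, geo_apply_inv]
    obtain ⟨i, his, hi⟩ := hex
    refine Finset.sum_pos' (fun i _ => hnn i) ⟨i, Finset.mem_erase.2 ⟨his, Finset.mem_univ i⟩, ?_⟩
    exact lt_of_le_of_ne (hnn i) (Ne.symm hi)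

/-- (2) -/
theorem L2 (hB : BaseF cs) (hR : S_ROOTS cs) (hSeg : S_SEG cs) (hA : AltM M n q)
    (hK : IsK cs n q ω z U) (hg : g ∉ U) (hg' : g' ∈ U)
    (e1 : rt cs q U g = geo cs z (ee s)) (e2 : rt cs q U g' = geo cs z (ee s)) {j : ℕ}
    (hgj : g < j) (hjg : j ≤ g') :
    ∃ c : ℝ, aw M q U j (geo cs (pf cs q U j)⁻¹ (geo cs z (ee s))) g' = c • ee (q g') := by
  set γ := geo cs z (ee s) with hγ
  have key : ∀ k, j ≤ k → k ≤ g' →
      aw M q U j (geo cs (pf cs q U j)⁻¹ γ) k = geo cs (pf cs q U k)⁻¹ γ ∨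
        aw M q U j (geo cs (pf cs q U j)⁻¹ γ) k = 0 := by
    intro k hk
    induction k, hk using Nat.le_induction with
    | base => intro _; left; exact aw_start q U j _ j le_rfl
    | succ k hk ih =>
      intro hkg
      have ih' := ih (by omega)
      by_cases hkU : k ∈ U
      · rw [aw_mem q U j _ hk hkU, step_mem cs q U hkU]
        rcases ih' with h | h
        · left; rw [h]
        · right; rw [h, map_zero]
      · rw [aw_not q U j _ hk hkU, step_not cs q U hkU]
        rcases ih' with h | h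
        · rw [h]
          by_cases hr : rt cs q U k = γ
          · right
            rw [← hr, inv_rt]
            simp [ee]
          · left
            rw [L1 cs hB hR hSeg hA hK hg hg' e1 e2 (by omega) (by omega) hkU hr, zero_smul,
              sub_zero]
        · right; rw [h]; simp
  rcases key g' hjg le_rfl with h | h
  · refine ⟨1, ?_⟩
    rw [h, one_smul, ← e2, inv_rt]
  · exact ⟨0, by rw [h, zero_smul]⟩

/-- the walk from one used position to another one whose root differs by a multiple of `γ` -/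
theorem LW (hB : BaseF cs) (hR : S_ROOTS cs) (hSeg : S_SEG cs) (hA : AltM M n q)
    (hK : IsK cs n q ω z U) (hg : g ∉ U) (hg' : g' ∈ U)
    (hγ0 : 0 ≤ geo cs z (ee s))
    (e1 : rt cs q U g = geo cs z (ee s)) (e2 : rt cs q U g' = geo cs z (ee s)) {p₁ p₂ : ℕ}
    (h1 : p₁ ∈ U) (h2 : p₂ ∈ U) (hgp : g < p₁) (h12 : p₁ < p₂) (hpg : p₂ < g') {κ : ℝ}
    (hκ : κ ≠ 0) (he : rt cs q U p₂ = rt cs q U p₁ + κ • geo cs z (ee s)) :
    aw M q U (p₁ + 1) (ee (q p₁)) (p₂ + 1) =
      ee (q p₂) + κ • geo cs (pf cs q U (p₂ + 1))⁻¹ (geo cs z (ee s)) := by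
  obtain ⟨hR1, hR2, hR3, hR4, hR5, hR6⟩ := hR n q ω U hK.fac
  set γ := geo cs z (ee s) with hγ
  have hg'n : g' < n := hK.fac.sub g' hg'
  have hγr : IsRt cs γ := ⟨z, s, rfl⟩
  -- signs at time `k`
  have hnegp : ∀ k, p₁ < k → k ≤ n → geo cs (pf cs q U k)⁻¹ (rt cs q U p₁) ≤ 0 := fun k hk hkn =>
    (hR4 k hkn _ (isRt_rt cs q U p₁) (hR1 p₁ h1).1).2 ⟨p₁, h1, hk, rfl⟩
  have hposr : ∀ p ∈ U, ∀ k, k ≤ p → 0 ≤ geo cs (pf cs q U k)⁻¹ (rt cs q U p) := by
    intro p hp k hk
    have hpn := hK.fac.sub p hp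
    rcases hB.rt_sign _ (hB.rt_geo (pf cs q U k)⁻¹ _ (isRt_rt cs q U p)) with h | h
    · exact h
    · obtain ⟨j, hj, hjk, hje⟩ := (hR4 k (by omega) _ (isRt_rt cs q U p) (hR1 p hp).1).1 h
      have := hR3 j hj p hp hje
      omega
  have hposγ : ∀ k, k ≤ g' → 0 ≤ geo cs (pf cs q U k)⁻¹ γ := by
    intro k hk
    rw [← e2]; exact hposr g' hg' k hk
  have hdiff : ∀ k, κ • geo cs (pf cs q U k)⁻¹ γ = geo cs (pf cs q U k)⁻¹ (rt cs q U p₂) +
      -(geo cs (pf cs q U k)⁻¹ (rt cs q U p₁)) := by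
    intro k
    rw [he, map_add, map_smul]
    abel
  -- `κ > 0`
  have hκ0 : 0 < κ := by
    by_contra hcon
    push Not at hcon
    have h3 := hposγ (p₁ + 1) (by omega)
    have h4 := hposr p₂ h2 (p₁ + 1) (by omega)
    have h5 := hnegp (p₁ + 1) (by omega) (by omega)
    have h6 := hB.rt_ne _ (hB.rt_geo (pf cs q U (p₁ + 1))⁻¹ _ (isRt_rt cs q U p₂))
    apply h6
    refine le_antisymm ?_ h4
    have h7 := hdiff (p₁ + 1)
    intro i
    have h8 := congrFun h7 i
    simp only [Pi.smul_apply, smul_eq_mul, Pi.add_apply, Pi.neg_apply] at h8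
    have h9 := h3 i
    have h10 := h5 i
    simp only [Pi.zero_apply] at h9 h10 ⊢
    nlinarith [mul_nonneg (neg_nonneg.2 hcon) h9]
  have key : ∀ k, p₁ + 1 ≤ k → k ≤ p₂ + 1 →
      aw M q U (p₁ + 1) (ee (q p₁)) k = - geo cs (pf cs q U k)⁻¹ (rt cs q U p₁) := by
    intro k hk
    induction k, hk using Nat.le_induction with
    | base =>
      intro _
      rw [aw_start q U _ _ _ le_rfl, step_mem cs q U h1, inv_rt, sg_ee_self, neg_neg]
    | succ k hk ih =>
      intro hkp
      have ih' := ih (by omega)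
      by_cases hkU : k ∈ U
      · rw [aw_mem q U _ _ hk hkU, step_mem cs q U hkU, ih', map_neg]
      · rw [aw_not q U _ _ hk hkU, step_not cs q U hkU, ih']
        have hkp2 : k < p₂ := by
          rcases lt_or_eq_of_le (show k ≤ p₂ by omega) with h | h
          · exact h
          · rw [h] at hkU; exact absurd h2 hkU
        have h3 := hposr p₂ h2 k hkp2.le
        have h4 := hnegp k (by omega) (by omega)
        have h5 := hdiff k
        have hz : (geo cs (pf cs q U k)⁻¹ (rt cs q U p₁)) (q k) = 0 := by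
          by_cases hr : rt cs q U k = γ
          · exfalso
            have h6 : geo cs (pf cs q U k)⁻¹ γ = ee (q k) := by rw [← hr, inv_rt]
            rw [h6] at h5
            have h7 : ∀ j, j ≠ q k → (geo cs (pf cs q U k)⁻¹ (rt cs q U p₂)) j = 0 := by
              intro j hj
              have h8 := congrFun h5 j
              simp only [Pi.smul_apply, smul_eq_mul, Pi.add_apply, Pi.neg_apply, ee,
                Pi.single_eq_of_ne hj, mul_zero] at h8
              have h9 := h3 j
              have h10 := h4 j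
              simp only [Pi.zero_apply] at h9 h10
              linarith
            have h8 := hB.rt_supp _ (q k) (hB.rt_geo _ _ (isRt_rt cs q U p₂)) h3 h7
            have h9 : rt cs q U p₂ = γ := by
              rw [← rt_of_inv cs q U k _ h8, hr]
            have := hR3 p₂ h2 g' hg' (h9.trans e2.symm)
            omega
          · have h6 := L1 cs hB hR hSeg hA hK hg hg' e1 e2 (show g < k by omega) (by omega) hkU hr
            have h7 := congrFun h5 (q k)
            simp only [Pi.smul_apply, smul_eq_mul, Pi.add_apply, Pi.neg_apply] at h7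
            rw [h6, mul_zero] at h7
            have h9 := h3 (q k)
            have h10 := h4 (q k)
            simp only [Pi.zero_apply] at h9 h10
            linarith
        rw [Pi.neg_apply, hz, neg_zero, zero_smul, sub_zero]
  rw [key (p₂ + 1) (by omega) le_rfl]
  have h3 := hdiff (p₂ + 1)
  have h4 : geo cs (pf cs q U (p₂ + 1))⁻¹ (rt cs q U p₂) = - ee (q p₂) := by
    rw [step_mem cs q U h2, inv_rt, sg_ee_self]
  rw [h4] at h3
  rw [h3]
  abel

end main

theorem dp (hB : BaseF cs) (hR : S_ROOTS cs) (hF : S_FLIP cs) (hAW : S_AW1 cs) (hSeg : S_SEG cs) :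
    S_DP cs := by
  classical
  intro n q ω z s U g g' β hA hz hK hK' hgg hg hg' e1 e2 hβ ⟨p, hp, hpβ, hpd⟩
  set U' := insert g (U.erase g') with hU'
  set γ := geo cs z (ee s) with hγ
  have hγ0 : 0 ≤ γ := geo_nonneg cs z s hz
  have hγr : IsRt cs γ := ⟨z, s, rfl⟩
  have hγn : frm M γ γ = 2 := hB.rt_norm γ hγr
  have hγne : γ ≠ 0 := hB.rt_ne γ hγr
  have hg'n : g' < n := hK.fac.sub g' hg'
  have hpn : p < n := hK.fac.sub p hp
  obtain ⟨hR1, hR2, hR3, hR4, hR5, hR6⟩ := hR n q ω U hK.fac
  obtain ⟨hfac', hF1, hF2, hF3, _, _, _⟩ := hF n q ω U g g' hK.fac hgg hg hg' (e1.trans e2.symm)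
  rw [← hU'] at hfac' hF1 hF2 hF3
  rw [e1] at hF3
  have hmem : ∀ i, i ≠ g → i ≠ g' → (i ∈ U ↔ i ∈ U') := by
    intro i h1 h2
    rw [hU', Finset.mem_insert, Finset.mem_erase]
    constructor
    · intro h; exact Or.inr ⟨h2, h⟩
    · rintro (h | h)
      · exact absurd h h1
      · exact h.2
  have hgU' : g ∈ U' := Finset.mem_insert_self _ _
  have hg'U' : g' ∉ U' := by
    rw [hU', Finset.mem_insert, Finset.mem_erase]
    rintro (h | h)
    · omega
    · exact h.1 rfl
  have hpg' : p ≠ g' := by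
    rintro rfl
    exact hβ (hpβ.symm.trans e2)
  have hpg : p ≠ g := by
    rintro rfl
    exact hg hp
  have hpU' : p ∈ U' := (hmem p hpg hpg').1 hp
  rcases lt_or_gt_of_ne hpg' with hlt | hgt
  swap
  · -- `p > g'`
    refine ⟨p, hpU', by rw [hF2 p hgt, hpβ], ?_⟩
    rw [← aw_congr q U U' (p + 1) _ n (fun i h1 _ => hmem i (by omega) (by omega))]
    exact hpd
  · -- the claim
    have claim : ∃ p' ∈ U', rt cs q U' p' = β ∧ p' < g' ∧ ∃ c : ℝ,
        aw M q U (p + 1) (ee (q p)) g' =
          aw M q U' (p' + 1) (ee (q p')) g' + c • ee (q g') := by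
      rcases lt_or_gt_of_ne hpg with hlt2 | hgt2
      · -- `p < g`
        refine ⟨p, hpU', by rw [hF1 p hlt2.le, hpβ], hlt, ?_⟩
        obtain ⟨c, hc⟩ := L2 cs hB hR hSeg hA hK hg hg' e1 e2 (show g < g + 1 by omega)
          (show g + 1 ≤ g' by omega)
        have hG : geo cs (pf cs q U (g + 1))⁻¹ γ = ee (q g) := by
          rw [step_not cs q U hg, ← e1, inv_rt]
        rw [← hγ, hG] at hc
        have hsame : aw M q U (p + 1) (ee (q p)) g = aw M q U' (p + 1) (ee (q p)) g :=
          aw_congr q U U' (p + 1) _ g (fun i h1 h2 => hmem i (by omega) (by omega))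
        set x := aw M q U (p + 1) (ee (q p)) g with hx
        have h1 : aw M q U (p + 1) (ee (q p)) (g + 1) = x - (x (q g)) • ee (q g) :=
          aw_not q U _ _ (by omega) hg
        have h2 : aw M q U' (p + 1) (ee (q p)) (g + 1) = x - coroot M (q g) x • ee (q g) := by
          rw [aw_mem q U' _ _ (by omega) hgU', ← hsame, sg_apply]
        have h3 : aw M q U (p + 1) (ee (q p)) (g + 1) =
            aw M q U' (p + 1) (ee (q p)) (g + 1) + (coroot M (q g) x - x (q g)) • ee (q g) := by
          rw [h1, h2]; module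
        refine ⟨(coroot M (q g) x - x (q g)) * c, ?_⟩
        rw [aw_comp q U (p + 1) _ (show p + 1 ≤ g + 1 by omega) g' (by omega), h3, aw_comb, hc,
          aw_comp q U' (p + 1) _ (show p + 1 ≤ g + 1 by omega) g' (by omega),
          aw_congr q U U' (g + 1) _ g' (fun i h1 h2 => hmem i (by omega) (by omega)), smul_smul]
      · by_cases hfr : frm M γ β = 0
        · refine ⟨p, hpU', ?_, hlt, 0, ?_⟩
          · rw [hF3 p hgt2 hlt.le, hpβ, hfr, zero_smul, sub_zero]
          · rw [zero_smul, add_zero]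
            exact aw_congr q U U' (p + 1) _ g' (fun i h1 h2 => hmem i (by omega) (by omega))
        · -- the other position
          obtain ⟨hR1', hR2', hR3', _, _, _⟩ := hR n q ω U' hfac'
          obtain ⟨p', hp'U', hp'β⟩ := hR2' β (by rw [← hpβ]; exact isRt_rt cs q U p)
            (by rw [← hpβ]; exact (hR1 p hp).1) (by rw [← hpβ]; exact (hR1 p hp).2)
          have hne1 : p' ≠ p := by
            rintro rfl
            rw [hF3 p' hgt2 hlt.le, hpβ, sub_eq_self] at hp'β
            rcases smul_eq_zero.1 hp'β with h | h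
            · exact hfr h
            · exact hγne h
          have hne2 : p' ≠ g := by
            rintro rfl
            rw [hF1 p' le_rfl, e1] at hp'β
            exact hβ hp'β.symm
          have hne3 : p' ≠ g' := by
            rintro rfl
            exact hg'U' hp'U'
          have hp'U : p' ∈ U := (hmem p' hne2 hne3).2 hp'U'
          have hgp' : g < p' := by
            by_contra hcon
            push Not at hcon
            rw [hF1 p' hcon] at hp'β
            exact hne1 (hR3 p' hp'U p hp (hp'β.trans hpβ.symm))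
          have hp'g : p' < g' := by
            by_contra hcon
            push Not at hcon
            rw [hF2 p' (by omega)] at hp'β
            exact hne1 (hR3 p' hp'U p hp (hp'β.trans hpβ.symm))
          have h3 := hF3 p' hgp' hp'g.le
          rw [hp'β] at h3
          -- `β = β' - (γ, β') γ`
          have h4 : frm M γ β = - frm M γ (rt cs q U p') := by
            have e3 : rt cs q U p' = β + (frm M γ (rt cs q U p')) • γ := by
              rw [h3]; module
            have e4 := congrArg (frm M γ) e3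
            rw [hB.frm_add, hB.frm_smul, hγn] at e4
            linarith
          have h5 : rt cs q U p' = rt cs q U p + (-(frm M γ β)) • γ := by
            rw [h4, neg_neg, hpβ]
            rw [h3]; module
          have hsame : ∀ (a : ℕ) (x : B → ℝ), g < a → aw M q U' a x g' = aw M q U a x g' :=
            fun a x ha => (aw_congr q U U' a x g' (fun i h1 h2 =>
              hmem i (by omega) (by omega))).symm
          refine ⟨p', hp'U', hp'β, hp'g, ?_⟩
          rw [hsame (p' + 1) _ (by omega)]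
          rcases lt_or_gt_of_ne hne1 with hlt3 | hgt3
          · -- `p' < p`
            obtain ⟨c, hc⟩ := L2 cs hB hR hSeg hA hK hg hg' e1 e2 (show g < p + 1 by omega)
              (show p + 1 ≤ g' by omega)
            have h6 := LW cs hB hR hSeg hA hK hg hg' hγ0 e1 e2 hp'U hp hgp' hlt3 hlt
              (κ := frm M γ β) hfr (by rw [h5]; module)
            refine ⟨-(frm M γ β * c), ?_⟩
            rw [aw_comp q U (p' + 1) _ (show p' + 1 ≤ p + 1 by omega) g' (by omega), h6, aw_comb,
              hc, smul_smul]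
            module
          · obtain ⟨c, hc⟩ := L2 cs hB hR hSeg hA hK hg hg' e1 e2 (show g < p' + 1 by omega)
              (show p' + 1 ≤ g' by omega)
            have h6 := LW cs hB hR hSeg hA hK hg hg' hγ0 e1 e2 hp hp'U hgt2 hgt3 hp'g
              (κ := -(frm M γ β)) (neg_ne_zero.2 hfr) h5
            refine ⟨-(frm M γ β) * c, ?_⟩
            rw [aw_comp q U (p + 1) _ (show p + 1 ≤ p' + 1 by omega) g' (by omega), h6, aw_comb,
              hc, smul_smul]
    obtain ⟨p', hp'U', hp'β, hp'g, c, hc⟩ := claim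
    refine ⟨p', hp'U', hp'β, ?_⟩
    have hp'n : p' < n := hfac'.sub p' hp'U'
    set y := aw M q U (p + 1) (ee (q p)) g' with hy
    set y' := aw M q U' (p' + 1) (ee (q p')) g' with hy'
    set y0 := y' - (y' (q g')) • ee (q g') with hy0
    -- `U'` skips `g'`
    have h1 : aw M q U' (p' + 1) (ee (q p')) n = aw M q U (g' + 1) y0 n := by
      rw [aw_comp q U' (p' + 1) _ (show p' + 1 ≤ g' + 1 by omega) n (by omega),
        aw_not q U' _ _ (by omega) hg'U', ← hy', ← hy0,
        aw_congr q U U' (g' + 1) _ n (fun i h1 h2 => hmem i (by omega) (by omega))]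
    have h2 : 0 ≤ aw M q U (g' + 1) y0 n := by
      rw [← h1]
      exact hAW n q ω U' p' hA hfac' hp'U' n hp'n le_rfl
    -- `U` uses `g'`
    have h3 : ∃ a : ℝ, sg M (q g') y = y0 + a • ee (q g') := by
      refine ⟨c + y' (q g') - coroot M (q g') y, ?_⟩
      rw [sg_apply, hy0, hc]
      module
    obtain ⟨a, ha⟩ := h3
    have hstep : aw M q U (p + 1) (ee (q p)) (g' + 1) = y0 + a • ee (q g') := by
      rw [aw_mem q U _ _ (by omega) hg', ← hy, ha]
    have hy00 : y0 (q g') = 0 := by
      rw [hy0]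
      simp [ee]
    have ha0 : 0 ≤ a := by
      have h4 := hAW n q ω U p hA hK.fac hp (g' + 1) (by omega) (by omega)
      rw [hstep] at h4
      have h5 := h4 (q g')
      simp only [Pi.zero_apply, Pi.add_apply, hy00, Pi.smul_apply, ee, Pi.single_eq_same,
        smul_eq_mul, mul_one, zero_add] at h5
      exact h5
    have h4 : 0 ≤ aw M q U (g' + 1) (ee (q g')) n :=
      hAW n q ω U g' hA hK.fac hg' n hg'n le_rfl
    have h5 : aw M q U (g' + 1) y0 n + a • aw M q U (g' + 1) (ee (q g')) n = 0 := by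
      rw [← aw_comb, ← hstep, ← aw_comp q U (p + 1) _ (show p + 1 ≤ g' + 1 by omega) n (by omega)]
      exact hpd
    rw [h1]
    refine le_antisymm ?_ h2
    intro i
    have h6 := congrFun h5 i
    have h7 := h4 i
    simp only [Pi.zero_apply, Pi.add_apply, Pi.smul_apply, smul_eq_mul] at h6 h7 ⊢
    nlinarith [mul_nonneg ha0 h7]

end Pool.Agent.W101.SC
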